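import Mathlib
import Pool.Agent.H403.W.X5

/-!
# Uniform bounds for the symbol length of Massey products

For `p = 2` and every `n ≥ 2` the symbol lengths of the elements of `n`-fold Massey products in
`H²(G_F(2), ℤ/2)` are bounded by a constant which depends only on `n` (no hypothesis: the theorem of
Merkurjev for `p = 2` is proved here too). For every prime `p` the same follows from the
Merkurjev-Suslin theorem for `p`, as quoted in the problem's Setting.
-/

namespace Pool.Agent.Results.MP_fac77f_nt.Uniform

open Pool.Agent.H403.W

theorem result :
    (∀ n : ℕ, 2 ≤ n → MasseyBound 2 n) ∧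
      ∀ p : ℕ, p.Prime → MerkurjevSuslin p → ∀ n : ℕ, 2 ≤ n → MasseyBound p n :=
  ⟨fun n _ => main.1 n, fun p hp h n _ => main.2 p hp h n⟩

end Pool.Agent.Results.MP_fac77f_nt.Uniform
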